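import Pool.Agent.K4H58.DR.Main

/-!
# Determinantal asymptotics for the zeros are those of the sine kernel, under RH

`N T x y` is the number of tuples of distinct zeros whose distances to the last one, in units of the
mean spacing, lie in the box with sides `[x_i, y_i]`, `i < m` (the `N_k(T; B)` of the problem,
`k = m + 1`).  For an integrable `f : ℝ → [0, 1]` let `K f (u) = ∫ f(x) exp(2πi x u) dx`; these are the
kernels of the stationary determinantal point processes on `ℝ`, whose correlation functions are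
`det [K f (p_i - p_j)]`; the sine kernel is `f = 1` on an interval of length `1`.  Under RH: if along
some sequence `T → ∞` (or filter) the k-level correlations of the zeros, for one single `k ≥ 2`, are
those of some stationary determinantal process (for `k = 2`: of some superposition of finitely many
independent ones), then that process is the one of the sine kernel.
-/

open Filter Topology MeasureTheory

namespace Pool.Agent.Results.MP_67227b_nt.DeterminantalRigidity

/-- multiplicity of `s` as a zero of the Riemann zeta function (order of vanishing at `s`) -/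
noncomputable def zmult (s : ℂ) : ℕ := analyticOrderNatAt riemannZeta s

/-- the number of nontrivial zeros of `ζ` with ordinate in `(0, t]`, with multiplicity -/
noncomputable def NZ (t : ℝ) : ℕ :=
  ∑ᶠ s ∈ {s : ℂ | riemannZeta s = 0 ∧ 0 < s.re ∧ s.re < 1 ∧ 0 < s.im ∧ s.im ≤ t}, zmult s

/-- for `n ≥ 1`: the `n`-th positive ordinate `γ n` of a nontrivial zero of `ζ`, the ordinates being
listed in nondecreasing order and repeated according to multiplicity -/
noncomputable def γ (n : ℕ) : ℝ := sInf {t : ℝ | n ≤ NZ t}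

/-- the number of tuples of distinct indices (one index `j none`, and one index `j (some i)` for each
side `i` of the box) with ordinates `≤ T` such that
`(γ_{j (some i)} - γ_{j none}) log T / 2π ∈ [x_i, y_i]` for all `i` -/
noncomputable def N {ι : Type} (T : ℝ) (x y : ι → ℝ) : ℕ :=
  {j : Option ι → ℕ | Function.Injective j ∧ (∀ i, 1 ≤ j i ∧ γ (j i) ≤ T) ∧
    ∀ i : ι, (γ (j (some i)) - γ (j none)) * (Real.log T / (2 * Real.pi)) ∈
      Set.Icc (x i) (y i)}.ncard

/-- the counts `N T x y`, divided by `(T / 2π) log T`, tend along the filter `l` to the integral of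
`g` over the box, for all boxes with `m` sides: the `(m + 1)`-level correlations have density `g` -/
def Density (l : Filter ℝ) (m : ℕ) (g : (Fin m → ℝ) → ℝ) : Prop :=
  ∀ x y : Fin m → ℝ, (∀ i, x i ≤ y i) →
    Tendsto (fun T : ℝ => (N T x y : ℝ) / (T / (2 * Real.pi) * Real.log T)) l
      (𝓝 (∫ u in Set.Icc x y, g u))

/-- the matrix `A(p_1, …, p_k)` of the problem (`Real.sinc t = sin t / t`, and `Real.sinc 0 = 1`) -/
noncomputable def A {k : ℕ} (p : Fin k → ℝ) : Matrix (Fin k) (Fin k) ℝ :=
  Matrix.of fun i j => Real.sinc (Real.pi * (p i - p j))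

/-- the asymptotics of the problem at the level `k = m + 1`, for `T → ∞` along the filter `l` -/
def Level (l : Filter ℝ) (m : ℕ) : Prop :=
  Density l m fun u => (A (Fin.snoc u 0 : Fin (m + 1) → ℝ)).det

/-- the kernel `K(u) = ∫ f(x) exp(2πi x u) dx` -/
noncomputable def K (f : ℝ → ℝ) (u : ℝ) : ℂ :=
  ∫ x, (f x : ℂ) * Complex.exp (((2 * Real.pi * x * u : ℝ) : ℂ) * Complex.I)

/-- the correlation function `det [K(p_i - p_j)]` (the matrix is hermitian, so this is real) -/
noncomputable def corr (f : ℝ → ℝ) {k : ℕ} (p : Fin k → ℝ) : ℝ :=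
  (Matrix.det (Matrix.of fun i j => K f (p i - p j))).re

/-- `f` is integrable with values in `[0, 1]` -/
def Spectral (f : ℝ → ℝ) : Prop := Integrable f ∧ ∀ x, 0 ≤ f x ∧ f x ≤ 1

/-- `f` is almost everywhere the indicator function of an interval of length one -/
def UnitInterval (f : ℝ → ℝ) : Prop :=
  ∃ c : ℝ, f =ᵐ[volume] (Set.Ioo c (c + 1)).indicator 1

/-- the density of the pairs of a superposition of independent stationary determinantal processes with
the kernels `K (f i)`: `(∑ K_i(0))² - ∑ |K_i(u)|²` -/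
noncomputable def pairs {ι : Type} [Fintype ι] (f : ι → ℝ → ℝ) (u : ℝ) : ℝ :=
  (∑ i, ∫ x, f i x) ^ 2 - ∑ i, ‖K (f i) u‖ ^ 2

lemma rhs_of (hRH : RiemannHypothesis) : SP.RHs := by
  intro s h0 h1 hz
  apply hRH s hz
  · rintro ⟨n, hn⟩
    rw [hn] at h0
    simp at h0
    have : (0 : ℝ) ≤ n := Nat.cast_nonneg n
    linarith
  · intro h
    rw [h] at h1
    simp at h1

lemma density_iff (l : Filter ℝ) (m : ℕ) (g : (Fin m → ℝ) → ℝ) :
    Density l m g ↔ Pool.Agent.K4H58.DR.LG l m g := Iff.rfl

lemma unit_level {l : Filter ℝ} {m : ℕ} {f : ℝ → ℝ} (hf : UnitInterval f) :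
    Density l m (fun u => corr f (Fin.snoc u 0 : Fin (m + 1) → ℝ)) ↔ Level l m := by
  obtain ⟨c, hc⟩ := hf
  have h1 : (fun u : Fin m → ℝ => corr f (Fin.snoc u 0 : Fin (m + 1) → ℝ)) =
      fun u => (A (Fin.snoc u 0 : Fin (m + 1) → ℝ)).det :=
    funext fun u => Pool.Agent.K4H58.DR.rf_unit hc u
  unfold Level
  rw [h1]

lemma spectral_unit : Spectral ((Set.Ioo (0 : ℝ) 1).indicator 1) := by
  refine ⟨?_, fun x => ?_⟩
  · exact (integrable_indicator_iff measurableSet_Ioo).2 (integrableOn_const (by simp))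
  · by_cases h : x ∈ Set.Ioo (0 : ℝ) 1
    · rw [Set.indicator_of_mem h]
      simp
    · rw [Set.indicator_of_notMem h]
      simp

lemma unit_unit : UnitInterval ((Set.Ioo (0 : ℝ) 1).indicator 1) := ⟨0, by
  rw [zero_add]⟩

lemma single (hRH : RiemannHypothesis) (m : ℕ) (f : ℝ → ℝ) (hf : Spectral f) (l : Filter ℝ)
    (hn : l.NeBot) (hl : l ≤ atTop)
    (h : Density l (m + 1) (fun u => corr f (Fin.snoc u 0 : Fin (m + 2) → ℝ))) :
    UnitInterval f ∧ Level l (m + 1) := by
  obtain ⟨f', h1, h2⟩ := Pool.Agent.K4H58.DR.exists_sp hf.2 hf.1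
  have h3 : Pool.Agent.K4H58.DR.LG l (m + 1) (Pool.Agent.K4H58.DR.rf f') := by
    have e : (Pool.Agent.K4H58.DR.rf f' : (Fin (m + 1) → ℝ) → ℝ) = Pool.Agent.K4H58.DR.rf f := by
      funext u
      unfold Pool.Agent.K4H58.DR.rf Pool.Agent.K4H58.DR.KD Pool.Agent.K4H58.DR.KM
      rw [Pool.Agent.K4H58.DR.kf_congr h2]
    rw [e]
    exact h
  obtain ⟨c, hc⟩ := Pool.Agent.K4H58.DR.single hl hRH (rhs_of hRH) h1 h3
  have hu : UnitInterval f := ⟨c, h2.trans hc⟩
  exact ⟨hu, (unit_level hu).1 h⟩

lemma superp (hRH : RiemannHypothesis) (ι : Type) [Fintype ι] (f : ι → ℝ → ℝ) (hf : ∀ i, Spectral (f i))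
    (l : Filter ℝ) (hn : l.NeBot) (hl : l ≤ atTop) (h : Density l 1 (fun u => pairs f (u 0))) :
    (∃ i, UnitInterval (f i) ∧ ∀ j, j ≠ i → f j =ᵐ[volume] 0) ∧ Level l 1 := by
  classical
  choose f' h1 h2 using fun i => Pool.Agent.K4H58.DR.exists_sp (hf i).2 (hf i).1
  have h3 : Pool.Agent.K4H58.DR.LG l 1 (fun u => (∑ i, ∫ x, f' i x) ^ 2 -
      ∑ i, ‖Pool.Agent.K4H58.DR.kf (f' i) (u 0)‖ ^ 2) := by
    have e : (fun u : Fin 1 → ℝ => (∑ i, ∫ x, f' i x) ^ 2 -
        ∑ i, ‖Pool.Agent.K4H58.DR.kf (f' i) (u 0)‖ ^ 2) = fun u => pairs f (u 0) := by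
      funext u
      have a1 : ∑ i, ∫ x, f' i x = ∑ i, ∫ x, f i x :=
        Finset.sum_congr rfl fun i _ => integral_congr_ae (h2 i).symm
      have a2 : ∀ i, Pool.Agent.K4H58.DR.kf (f' i) = K (f i) := fun i =>
        (Pool.Agent.K4H58.DR.kf_congr (h2 i)).symm
      unfold pairs
      rw [a1]
      simp_rw [a2]
    rw [e]
    exact h
  obtain ⟨i, c, hc, hj⟩ := Pool.Agent.K4H58.DR.super hl hRH (rhs_of hRH) h1 h3
  have hu : UnitInterval (f i) := ⟨c, (h2 i).trans hc⟩
  have hz : ∀ j, j ≠ i → f j =ᵐ[volume] 0 := fun j hji => (h2 j).trans (hj j hji)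
  refine ⟨⟨i, hu, hz⟩, (unit_level hu).1 ?_⟩
  have e : (fun u : Fin 1 → ℝ => corr (f i) (Fin.snoc u 0 : Fin 2 → ℝ)) = fun u => pairs f (u 0) := by
    funext u
    have e1 : corr (f i) (Fin.snoc u 0 : Fin 2 → ℝ) = (∫ x, f i x) ^ 2 - ‖K (f i) (u 0)‖ ^ 2 :=
      Pool.Agent.K4H58.DR.rf_one (f i) u
    rw [e1]
    unfold pairs
    rw [Finset.sum_eq_single i, Finset.sum_eq_single i]
    · intro j _ hji
      have e2 : K (f j) = K 0 := Pool.Agent.K4H58.DR.kf_congr (hz j hji)
      rw [e2]
      unfold K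
      simp
    · exact fun h => absurd (Finset.mem_univ i) h
    · intro j _ hji
      rw [integral_congr_ae (hz j hji)]
      simp
    · exact fun h => absurd (Finset.mem_univ i) h
  rw [e]
  exact h

/-- **Determinantal rigidity (RH).**
(1) For every single level `k = m + 2 ≥ 2`: if along a filter `l` (`T → ∞` along some sequence, say)
the `k`-level correlations are `det [K(p_i - p_j)]` with the kernel `K = K f` of some integrable
`f : ℝ → [0, 1]`, then `f` is a.e. the indicator function of an interval of length one, and the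
asymptotics of the problem hold at this level along `l`.
(2) If along `l` the pair correlation is that of a superposition of finitely many independent
stationary determinantal processes, then all but one of them are empty, the remaining `f i` is a.e.
the indicator function of an interval of length one, and the pair correlation conjecture holds along `l`.
(3) The `k`-level conjecture is equivalent to the statement that the `k`-level correlations are
those of some stationary determinantal process.
(4) The pair correlation conjecture is equivalent to the statement that the pair correlation is that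
of some finite superposition of stationary determinantal processes. -/
theorem result (hRH : RiemannHypothesis) :
    (∀ (m : ℕ) (f : ℝ → ℝ), Spectral f → ∀ l : Filter ℝ, l.NeBot → l ≤ atTop →
      Density l (m + 1) (fun u => corr f (Fin.snoc u 0 : Fin (m + 2) → ℝ)) →
      UnitInterval f ∧ Level l (m + 1)) ∧
    (∀ (ι : Type) [Fintype ι] (f : ι → ℝ → ℝ), (∀ i, Spectral (f i)) →
      ∀ l : Filter ℝ, l.NeBot → l ≤ atTop → Density l 1 (fun u => pairs f (u 0)) →
      (∃ i, UnitInterval (f i) ∧ ∀ j, j ≠ i → f j =ᵐ[volume] 0) ∧ Level l 1) ∧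
    (∀ m : ℕ, Level atTop (m + 1) ↔ ∃ f : ℝ → ℝ, Spectral f ∧
      Density atTop (m + 1) (fun u => corr f (Fin.snoc u 0 : Fin (m + 2) → ℝ))) ∧
    (Level atTop 1 ↔ ∃ (r : ℕ) (f : Fin r → ℝ → ℝ), (∀ i, Spectral (f i)) ∧
      Density atTop 1 (fun u => pairs f (u 0))) := by
  refine ⟨single hRH, superp hRH, fun m => ⟨fun h => ?_, ?_⟩, ⟨fun h => ?_, ?_⟩⟩
  · exact ⟨_, spectral_unit, (unit_level unit_unit).2 h⟩
  · rintro ⟨f, hf, h⟩
    exact (single hRH m f hf atTop inferInstance le_rfl h).2
  · refine ⟨1, fun _ => (Set.Ioo (0 : ℝ) 1).indicator 1, fun _ => spectral_unit, ?_⟩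
    have h1 := (unit_level unit_unit).2 h
    have e : (fun u : Fin 1 → ℝ => pairs (fun _ : Fin 1 => (Set.Ioo (0 : ℝ) 1).indicator 1) (u 0)) =
        fun u => corr ((Set.Ioo (0 : ℝ) 1).indicator 1) (Fin.snoc u 0 : Fin 2 → ℝ) := by
      funext u
      have e1 : corr ((Set.Ioo (0 : ℝ) 1).indicator 1) (Fin.snoc u 0 : Fin 2 → ℝ) =
          (∫ x, (Set.Ioo (0 : ℝ) 1).indicator 1 x) ^ 2 -
            ‖K ((Set.Ioo (0 : ℝ) 1).indicator 1) (u 0)‖ ^ 2 :=
        Pool.Agent.K4H58.DR.rf_one _ u
      rw [e1]
      unfold pairs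
      simp only [Finset.univ_unique, Finset.sum_singleton]
    rw [e]
    exact h1
  · rintro ⟨r, f, hf, h⟩
    exact (superp hRH (Fin r) f hf atTop inferInstance le_rfl h).2

end Pool.Agent.Results.MP_67227b_nt.DeterminantalRigidity
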