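import Pool.Agent.K4H58.KL.Lev

/-!
# Long sides of boxes, and the inheritance of the sine kernel asymptotics by the lower levels, under RH

`N T x y` is the number of tuples of distinct zeros whose distances to the last one, in units of the
mean spacing, lie in the box with sides `[x_i, y_i]`, `i < m` (the `N_k(T; B)` of the problem,
`k = m + 1`).  Under RH one long side `[a, b]` more multiplies the count by the length `b - a` of the
side, with the error `O(√(log (2 + b - a)) T log T)`, for all sides `[a, b] ⊆ [-A, A]`,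
`A log A ≤ B log T`.  So the sine kernel asymptotics of a box are the same thing as those of the boxes
with one long side more (for very long sides, or for fixed sides of unbounded length), the `(k+1)`-level
statement implies the `k`-level statement, and the full conjecture is equivalent to its truth for
infinitely many `k`.
-/

open Filter Topology MeasureTheory

namespace Pool.Agent.Results.MP_67227b_nt.LongSidesAndLowerLevels

/-- multiplicity of `s` as a zero of the Riemann zeta function (order of vanishing at `s`) -/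
noncomputable def zmult (s : ℂ) : ℕ := analyticOrderNatAt riemannZeta s

/-- the number of nontrivial zeros of `ζ` with ordinate in `(0, t]`, with multiplicity -/
noncomputable def NZ (t : ℝ) : ℕ :=
  ∑ᶠ s ∈ {s : ℂ | riemannZeta s = 0 ∧ 0 < s.re ∧ s.re < 1 ∧ 0 < s.im ∧ s.im ≤ t}, zmult s

/-- for `n ≥ 1`: the `n`-th positive ordinate `γ n` of a nontrivial zero of `ζ`, the ordinates being
listed in nondecreasing order and repeated according to multiplicity -/
noncomputable def γ (n : ℕ) : ℝ := sInf {t : ℝ | n ≤ NZ t}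

/-- the number of tuples of distinct indices (one index `j none`, and one index `j (some i)` for each
side `i` of the box) with ordinates `≤ T` such that
`(γ_{j (some i)} - γ_{j none}) log T / 2π ∈ [x_i, y_i]` for all `i` -/
noncomputable def N {ι : Type} (T : ℝ) (x y : ι → ℝ) : ℕ :=
  {j : Option ι → ℕ | Function.Injective j ∧ (∀ i, 1 ≤ j i ∧ γ (j i) ≤ T) ∧
    ∀ i : ι, (γ (j (some i)) - γ (j none)) * (Real.log T / (2 * Real.pi)) ∈
      Set.Icc (x i) (y i)}.ncard

/-- the matrix `A(p_1, …, p_k)` of the problem (`Real.sinc t = sin t / t`, and `Real.sinc 0 = 1`) -/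
noncomputable def A {k : ℕ} (p : Fin k → ℝ) : Matrix (Fin k) (Fin k) ℝ :=
  Matrix.of fun i j => Real.sinc (Real.pi * (p i - p j))

/-- the sine kernel asymptotics for the box with the sides `[x_i, y_i]`, `i < m` (level `k = m + 1`):
`N_k(T; B) / ((T / 2π) log T)` tends to the integral of `det A(u_1, …, u_m, 0)` over the box `B` -/
def SineAsymp {m : ℕ} (x y : Fin m → ℝ) : Prop :=
  Tendsto (fun T : ℝ => (N T x y : ℝ) / (T / (2 * Real.pi) * Real.log T)) atTop
    (𝓝 (∫ u in Set.Icc x y, (A (Fin.snoc u 0 : Fin (m + 1) → ℝ)).det))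

/-- the conjecture at the level `k = m + 1`: the sine kernel asymptotics for all boxes with `m` sides -/
def Level (m : ℕ) : Prop := ∀ x y : Fin m → ℝ, (∀ i, x i ≤ y i) → SineAsymp x y

lemma rhs_of (hRH : RiemannHypothesis) : SP.RHs := by
  intro s h0 h1 hz
  apply hRH s hz
  · rintro ⟨n, hn⟩
    rw [hn] at h0
    simp at h0
    have : (0 : ℝ) ≤ n := Nat.cast_nonneg n
    linarith
  · intro h
    rw [h] at h1
    simp at h1

lemma iff_LB {m : ℕ} (x y : Fin m → ℝ) : SineAsymp x y ↔ Pool.Agent.K4H58.KL.LB x y := Iff.rfl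

lemma level_down (hRH : RiemannHypothesis) (m : ℕ) (h : Level (m + 1)) : Level m := by
  intro x y hxy
  refine (iff_LB x y).2 (Pool.Agent.K4H58.KL.drop (rhs_of hRH) x y fun L => ⟨0, max L 0, ?_, ?_⟩)
  · rw [zero_add]
    exact le_max_left _ _
  · refine (iff_LB _ _).1 (h _ _ fun i => ?_)
    refine Fin.cases ?_ (fun j => ?_) i
    · simp
    · simpa using hxy j

lemma level_le (hRH : RiemannHypothesis) {m n : ℕ} (hmn : m ≤ n) (h : Level n) : Level m := by
  induction n, hmn using Nat.le_induction with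
  | base => exact h
  | succ n _ ih => exact ih (level_down hRH n h)

/-- **Long sides and lower levels (RH).**
(1) For boxes with all sides in `[-R, R]`, one side `[a, b] ⊆ [-A, A]`, `A log A ≤ B log T`, more
multiplies the count by `b - a`, up to `C √(log (2 + b - a)) T log T`.
(2) The sine kernel asymptotics hold for the box `∏ [x_i, y_i]` if and only if they hold, with an
error which is small compared to the length of the long side, for the boxes `[a, b] × ∏ [x_i, y_i]`
with `b - a` large, uniformly for `[a, b] ⊆ [-A, A]`, `A log A ≤ B log T`.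
(3) If they hold for boxes `[a, b] × ∏ [x_i, y_i]` (fixed, `T → ∞`) with `b - a` arbitrarily large,
then they hold for `∏ [x_i, y_i]`.
(4) The `(k + 1)`-level conjecture implies the `k`-level conjecture, for every `k ≥ 1`.
(5) The conjecture holds for every level if it holds for infinitely many levels. -/
theorem result (hRH : RiemannHypothesis) :
    (∀ (m : ℕ) (R B : ℝ), 0 ≤ R → ∃ C A₀ : ℝ, 0 < C ∧ ∀ A : ℝ, A₀ ≤ A → ∀ T : ℝ, 1 ≤ T →
      A * Real.log A ≤ B * Real.log T → ∀ x y : Fin m → ℝ, (∀ i, -R ≤ x i ∧ y i ≤ R) →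
      ∀ a b : ℝ, -A ≤ a → a ≤ b → b ≤ A →
      |(N T (Fin.cons a x : Fin (m + 1) → ℝ) (Fin.cons b y) : ℝ) - (b - a) * N T x y| ≤
        C * Real.sqrt (Real.log (2 + (b - a))) * (T * Real.log T)) ∧
    (∀ (m : ℕ) (x y : Fin m → ℝ), SineAsymp x y ↔ ∀ B ε : ℝ, 0 < ε → ∃ A₀ : ℝ, 0 < A₀ ∧
      ∀ A : ℝ, A₀ ≤ A → ∀ T : ℝ, 1 ≤ T → A * Real.log A ≤ B * Real.log T →
      ∀ a b : ℝ, -A ≤ a → a + A₀ ≤ b → b ≤ A →
      |(N T (Fin.cons a x : Fin (m + 1) → ℝ) (Fin.cons b y) : ℝ) / (T / (2 * Real.pi) * Real.log T) -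
        (b - a) * ∫ u in Set.Icc x y, (Results.MP_67227b_nt.LongSidesAndLowerLevels.A
          (Fin.snoc u 0 : Fin (m + 1) → ℝ)).det| ≤ ε * (b - a)) ∧
    (∀ (m : ℕ) (x y : Fin m → ℝ),
      (∀ L : ℝ, ∃ a b : ℝ, a + L ≤ b ∧ SineAsymp (Fin.cons a x : Fin (m + 1) → ℝ) (Fin.cons b y)) →
      SineAsymp x y) ∧
    (∀ m : ℕ, Level (m + 1) → Level m) ∧
    ((∃ᶠ m : ℕ in atTop, Level m) → ∀ m : ℕ, Level m) := by
  refine ⟨fun m R B hR => ?_, fun m x y => ?_, fun m x y h => ?_, level_down hRH, fun h m => ?_⟩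
  · obtain ⟨C, A0, hC, _, h⟩ := Pool.Agent.K4H58.KL.red (rhs_of hRH) m R B hR
    exact ⟨C, A0, hC, h⟩
  · exact (iff_LB x y).trans (Pool.Agent.K4H58.KL.long_iff (rhs_of hRH) x y)
  · exact (iff_LB x y).2 (Pool.Agent.K4H58.KL.drop (rhs_of hRH) x y h)
  · obtain ⟨n, hn, h1⟩ := (frequently_atTop.1 h) m
    exact level_le hRH hn h1

end Pool.Agent.Results.MP_67227b_nt.LongSidesAndLowerLevels
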