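import Pool.Agent.K4H58.SC.Sets

/-!
# Perfect screening: a sum rule between the k-level and the (k+1)-level correlations, under RH

`N T x y` is the number of tuples of `k = m + 1` distinct zeros whose distances to the last one, in
units of the mean spacing, lie in the box with sides `[x_i, y_i]`, `i < m` (the `N_k(T; B)` of the
problem).  `outside J T x y` is the sum, over all these tuples and all further zeros, of the weight
`W J v` of the distance `v` from the further zero to the last zero of the tuple.  The weights are smooth,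
`0 ≤ W J ≤ 1`, `W J → 1` as `J → ∞`, with integral `c J ~ 2 ^ (J + 1) / J`.  If the zeros around a tuple
were distributed like independent points, the sum would be `c J * N T x y` in the mean.  Under RH it is
`(c J - k) * N T x y`, up to `O(J^(-1/2))` times `T log T`: around every tuple of `k` zeros, in every
box, there are `k` zeros less than in the mean (for `J` large, after `T → ∞`).

Consequence: if along some sequence `T → ∞` the k-level correlations have the density `ρ` and the
(k+1)-level correlations the bounded continuous density `ρ'`, then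
`∫ (∫_B ρ'(v, u) du - ∫_B ρ(u) du) dv = - k ∫_B ρ(u) du`
for every box `B`, as soon as the outer integral converges absolutely.  This is the sum rule which the
sine kernel determinants satisfy.
-/

open Filter Topology MeasureTheory

namespace Pool.Agent.Results.MP_67227b_nt.ScreeningSumRule

/-- multiplicity of `s` as a zero of the Riemann zeta function (order of vanishing at `s`) -/
noncomputable def zmult (s : ℂ) : ℕ := analyticOrderNatAt riemannZeta s

/-- the number of nontrivial zeros of `ζ` with ordinate in `(0, t]`, with multiplicity -/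
noncomputable def NZ (t : ℝ) : ℕ :=
  ∑ᶠ s ∈ {s : ℂ | riemannZeta s = 0 ∧ 0 < s.re ∧ s.re < 1 ∧ 0 < s.im ∧ s.im ≤ t}, zmult s

/-- for `n ≥ 1`: the `n`-th positive ordinate `γ n` of a nontrivial zero of `ζ`, the ordinates being
listed in nondecreasing order and repeated according to multiplicity -/
noncomputable def γ (n : ℕ) : ℝ := sInf {t : ℝ | n ≤ NZ t}

/-- the tuples of distinct indices (one index `j none`, and one index `j (some i)` for each
side `i` of the box) with ordinates `≤ T` such that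
`(γ_{j (some i)} - γ_{j none}) log T / 2π ∈ [x_i, y_i]` for all `i` -/
def Tuples {ι : Type} (T : ℝ) (x y : ι → ℝ) : Set (Option ι → ℕ) :=
  {j | Function.Injective j ∧ (∀ i, 1 ≤ j i ∧ γ (j i) ≤ T) ∧
    ∀ i : ι, (γ (j (some i)) - γ (j none)) * (Real.log T / (2 * Real.pi)) ∈
      Set.Icc (x i) (y i)}

/-- the number of these tuples -/
noncomputable def N {ι : Type} (T : ℝ) (x y : ι → ℝ) : ℕ := (Tuples T x y).ncard

/-- the weight: the mean of the Fejér kernels `(sin (πv/2^j) / (πv/2^j))²`, `1 ≤ j ≤ J`, averaged over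
an interval of length `1` -/
noncomputable def W (J : ℕ) (v : ℝ) : ℝ :=
  ∫ s in (-(1 / 2 : ℝ))..(1 / 2),
    (∑ j ∈ Finset.Icc 1 J, Real.sinc (Real.pi * (v + s) / 2 ^ j) ^ 2) / J

/-- the integral of the weight -/
noncomputable def c (J : ℕ) : ℝ := (2 ^ (J + 1) - 2) / J

/-- the sum of the weights `W J ((γ_l - γ_{j none}) log T / 2π)` over all tuples `j` as above and all
indices `l` with `γ_l ≤ T` which do not occur in the tuple `j` -/
noncomputable def outside (J : ℕ) {ι : Type} (T : ℝ) (x y : ι → ℝ) : ℝ :=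
  ∑ᶠ p ∈ {p : (Option ι → ℕ) × ℕ | p.1 ∈ Tuples T x y ∧ (1 ≤ p.2 ∧ γ p.2 ≤ T) ∧ ∀ i, p.1 i ≠ p.2},
    W J ((γ p.2 - γ (p.1 none)) * (Real.log T / (2 * Real.pi)))

/-- the counts `N T x y`, divided by `(T / 2π) log T`, tend along the filter `l` to the integral of
`g` over the box, for all boxes with `m` sides: the `(m + 1)`-level correlations have density `g` -/
def Density (l : Filter ℝ) (m : ℕ) (g : (Fin m → ℝ) → ℝ) : Prop :=
  ∀ x y : Fin m → ℝ, (∀ i, x i ≤ y i) →
    Tendsto (fun T : ℝ => (N T x y : ℝ) / (T / (2 * Real.pi) * Real.log T)) l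
      (𝓝 (∫ u in Set.Icc x y, g u))

lemma rhs_of (hRH : RiemannHypothesis) : SP.RHs := by
  intro s h0 h1 hz
  apply hRH s hz
  · rintro ⟨n, hn⟩
    rw [hn] at h0
    simp at h0
    have : (0 : ℝ) ≤ n := Nat.cast_nonneg n
    linarith
  · intro h
    rw [h] at h1
    simp at h1

lemma outside_eq {m : ℕ} (J : ℕ) (T : ℝ) (x y : Fin m → ℝ) :
    outside J T x y = Pool.Agent.K4H58.SC.Scr J T x y := by
  rw [Pool.Agent.K4H58.SC.Scr_Ix, ← Pool.Agent.K4H58.SC.finsum_Ix T x y]
  rfl

lemma W_lim (v : ℝ) : Tendsto (fun J : ℕ => W J v) atTop (𝓝 1) := by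
  have h4 : Tendsto (fun J : ℕ => 1 - Real.pi ^ 2 * (|v| + 1) ^ 2 / (9 * (J : ℝ))) atTop (𝓝 (1 - 0)) := by
    refine tendsto_const_nhds.sub ?_
    exact tendsto_const_nhds.div_atTop
      ((tendsto_natCast_atTop_atTop).const_mul_atTop (by norm_num))
  rw [sub_zero] at h4
  refine tendsto_of_tendsto_of_tendsto_of_le_of_le' h4 tendsto_const_nhds ?_ ?_
  · filter_upwards [eventually_ge_atTop 1] with J hJ
    have h5 : 1 - W J v ≤ Real.pi ^ 2 * (|v| + 1) ^ 2 / (9 * J) :=
      Pool.Agent.K4H58.SC.one_sub_WJ J hJ (le_refl |v|)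
    linarith
  · filter_upwards [eventually_ge_atTop 1] with J hJ
    exact Pool.Agent.K4H58.SC.WJ_le_one J hJ v

/-- **Perfect screening (RH).**
(1) The weights: `0 ≤ W J ≤ 1`, `∫ W J = c J`, and `W J v → 1` as `J → ∞`.
(2) For all `m` and `R` there is `C` such that for all `J ≥ 1` and all large `T`, for all boxes with
sides in `[-R, R]`, the sum of the weights over the further zeros is `(c J - (m + 1)) N T x y` up to
`(C / √J) T log T`.
(3) If along a filter `l` (`T → ∞` along some sequence, say) the `(m + 1)`-level and the `(m + 2)`-level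
correlations have the densities `ρ` and `ρ'`, `ρ'` continuous and bounded, then for every box the
weighted integral of `ρ'` over the additional variable is `(c J - (m + 1)) ∫_B ρ` up to `C / √J`, and the
integral of `∫_B ρ'(v, u) du - ∫_B ρ(u) du` over `v` is `- (m + 1) ∫_B ρ`, if it converges absolutely. -/
theorem result (hRH : RiemannHypothesis) :
    ((∀ J : ℕ, 1 ≤ J → (∀ v, 0 ≤ W J v ∧ W J v ≤ 1) ∧ ∫ v, W J v = c J) ∧
      ∀ v, Tendsto (fun J : ℕ => W J v) atTop (𝓝 1)) ∧
    (∀ m R : ℕ, ∃ C : ℝ, 0 < C ∧ ∀ J : ℕ, 1 ≤ J → ∀ᶠ T : ℝ in atTop, ∀ x y : Fin m → ℝ,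
      (∀ i, -(R : ℝ) ≤ x i ∧ y i ≤ R) →
      |outside J T x y - (c J - (m + 1)) * N T x y| ≤ C / Real.sqrt J * (T * Real.log T)) ∧
    (∀ (m : ℕ) (l : Filter ℝ), l.NeBot → l ≤ atTop →
      ∀ (ρ' : (Fin (m + 1) → ℝ) → ℝ) (ρ : (Fin m → ℝ) → ℝ), Continuous ρ' → (∃ M : ℝ, ∀ w, |ρ' w| ≤ M) →
      Density l (m + 1) ρ' → Density l m ρ → ∀ x y : Fin m → ℝ, (∀ i, x i ≤ y i) →
      (∃ C : ℝ, ∀ J : ℕ, 1 ≤ J →
        |(∫ v, W J v * ∫ u in Set.Icc x y, ρ' (Fin.cons v u : Fin (m + 1) → ℝ)) -
          (c J - (m + 1)) * ∫ u in Set.Icc x y, ρ u| ≤ C / Real.sqrt J) ∧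
      (Integrable (fun v : ℝ => (∫ u in Set.Icc x y, ρ' (Fin.cons v u : Fin (m + 1) → ℝ)) -
          ∫ u in Set.Icc x y, ρ u) →
        ∫ v : ℝ, ((∫ u in Set.Icc x y, ρ' (Fin.cons v u : Fin (m + 1) → ℝ)) -
          ∫ u in Set.Icc x y, ρ u) = -(m + 1) * ∫ u in Set.Icc x y, ρ u)) := by
  refine ⟨⟨fun J hJ => ⟨fun v => ⟨Pool.Agent.K4H58.SC.WJ_nonneg J v,
    Pool.Agent.K4H58.SC.WJ_le_one J hJ v⟩, Pool.Agent.K4H58.SC.WJ_mass J hJ⟩, W_lim⟩, fun m R => ?_,
    fun m l hn hl ρ' ρ hc hM h' h x y hxy => ⟨?_, fun hint => ?_⟩⟩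
  · obtain ⟨C, hC, h⟩ := Pool.Agent.K4H58.SC.screening hRH (rhs_of hRH) m R
    refine ⟨C, hC, fun J hJ => ?_⟩
    filter_upwards [h J hJ] with T hT x y hxy
    rw [outside_eq]
    exact hT x y hxy
  · obtain ⟨C, -, hr⟩ := Pool.Agent.K4H58.SC.rule_J hRH (rhs_of hRH) m hxy
    exact ⟨C, fun J hJ => hr l hn hl ρ' hc hM ρ h' h J hJ⟩
  · exact Pool.Agent.K4H58.SC.rule hRH (rhs_of hRH) m hxy hl hc hM h' h hint

end Pool.Agent.Results.MP_67227b_nt.ScreeningSumRule
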