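import Pool.Agent.K4H58.KL.Fwd

/-!
# The k-level correlation conjecture in terms of void probabilities, under RH

`N T x y` is the number of tuples of distinct zeros whose distances to the last one, in units of the
mean spacing, lie in the box with sides `[x_i, y_i]`, `i < m` (the `N_k(T; B)` of the problem,
`k = m + 1`).  `void T U` is the proportion of the `t ∈ [0, T]` such that there is no zero (with
ordinate in `(0, T]`) in the set `t + (2π / log T) U`.  Under RH the asymptotics of the `k`-level counts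
for all boxes follow from those of the void probabilities of the unions `U` of at most `k` intervals
of arbitrarily small total length, the limit being the Fredholm series `det (1 - K_U)` of the sine
kernel; and the full conjecture (all `k`, all boxes) is equivalent to the asymptotics of the void
probabilities of all finite unions of intervals.
-/

open Filter Topology MeasureTheory

namespace Pool.Agent.Results.MP_67227b_nt.VoidProbabilities

/-- multiplicity of `s` as a zero of the Riemann zeta function (order of vanishing at `s`) -/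
noncomputable def zmult (s : ℂ) : ℕ := analyticOrderNatAt riemannZeta s

/-- the number of nontrivial zeros of `ζ` with ordinate in `(0, t]`, with multiplicity -/
noncomputable def NZ (t : ℝ) : ℕ :=
  ∑ᶠ s ∈ {s : ℂ | riemannZeta s = 0 ∧ 0 < s.re ∧ s.re < 1 ∧ 0 < s.im ∧ s.im ≤ t}, zmult s

/-- for `n ≥ 1`: the `n`-th positive ordinate `γ n` of a nontrivial zero of `ζ`, the ordinates being
listed in nondecreasing order and repeated according to multiplicity -/
noncomputable def γ (n : ℕ) : ℝ := sInf {t : ℝ | n ≤ NZ t}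

/-- the number of tuples of distinct indices (one index `j none`, and one index `j (some i)` for each
side `i` of the box) with ordinates `≤ T` such that
`(γ_{j (some i)} - γ_{j none}) log T / 2π ∈ [x_i, y_i]` for all `i` -/
noncomputable def N {ι : Type} (T : ℝ) (x y : ι → ℝ) : ℕ :=
  {j : Option ι → ℕ | Function.Injective j ∧ (∀ i, 1 ≤ j i ∧ γ (j i) ≤ T) ∧
    ∀ i : ι, (γ (j (some i)) - γ (j none)) * (Real.log T / (2 * Real.pi)) ∈
      Set.Icc (x i) (y i)}.ncard

/-- the matrix `A(p_1, …, p_k)` of the problem (`Real.sinc t = sin t / t`, and `Real.sinc 0 = 1`) -/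
noncomputable def A {k : ℕ} (p : Fin k → ℝ) : Matrix (Fin k) (Fin k) ℝ :=
  Matrix.of fun i j => Real.sinc (Real.pi * (p i - p j))

/-- the conjecture at the level `k = m + 1`: for every box `B` with `m` sides
`N_k(T; B) / ((T / 2π) log T)` tends to the integral of `det A(u_1, …, u_m, 0)` over `B` -/
def Level (m : ℕ) : Prop := ∀ x y : Fin m → ℝ, (∀ i, x i ≤ y i) →
  Tendsto (fun T : ℝ => (N T x y : ℝ) / (T / (2 * Real.pi) * Real.log T)) atTop
    (𝓝 (∫ u in Set.Icc x y, (A (Fin.snoc u 0 : Fin (m + 1) → ℝ)).det))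

/-- the void probability: the proportion of the `t ∈ [0, T]` such that
`(γ_n - t) log T / 2π ∉ U` for all `n ≥ 1` with `γ_n ≤ T` -/
noncomputable def void (T : ℝ) (U : Set ℝ) : ℝ :=
  (volume {t : ℝ | t ∈ Set.Icc 0 T ∧
    ∀ n : ℕ, 1 ≤ n → γ n ≤ T → (γ n - t) * (Real.log T / (2 * Real.pi)) ∉ U}).toReal / T

/-- the Fredholm series `∑_k (-1)^k / k! ∫_{U^k} det A(p) dp` of the sine kernel on `U` -/
noncomputable def fredholm (U : Set ℝ) : ℝ :=
  ∑' k : ℕ, (-1) ^ k / (k.factorial : ℝ) * ∫ p in Set.pi Set.univ (fun _ : Fin k => U), (A p).det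

/-- the void asymptotics for the union of the intervals `[a_i, b_i)` -/
def VoidAsymp {r : ℕ} (a b : Fin r → ℝ) : Prop :=
  Tendsto (fun T : ℝ => void T (⋃ i, Set.Ico (a i) (b i))) atTop
    (𝓝 (fredholm (⋃ i, Set.Ico (a i) (b i))))

/-- the `[a_i, b_i)` are pairwise disjoint intervals -/
def Intervals {r : ℕ} (a b : Fin r → ℝ) : Prop :=
  (∀ i, a i ≤ b i) ∧ ∀ i j, i ≠ j → Disjoint (Set.Ico (a i) (b i)) (Set.Ico (a j) (b j))

lemma rhs_of (hRH : RiemannHypothesis) : SP.RHs := by
  intro s h0 h1 hz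
  apply hRH s hz
  · rintro ⟨n, hn⟩
    rw [hn] at h0
    simp at h0
    have : (0 : ℝ) ≤ n := Nat.cast_nonneg n
    linarith
  · intro h
    rw [h] at h1
    simp at h1

lemma void_eq (T : ℝ) {U : Set ℝ} (hU : MeasurableSet U) : void T U = Pool.Agent.K4H58.KL.VT U T := by
  unfold void Pool.Agent.K4H58.KL.VT
  congr 1
  have h1 : ∀ t : ℝ, (∀ n : ℕ, 1 ≤ n → γ n ≤ T → (γ n - t) * (Real.log T / (2 * Real.pi)) ∉ U) ↔
      ∀ n ∈ Finset.Icc 1 (SG.NZ T), Pool.Agent.K4H58.KL.sc T t n ∉ U := by
    intro t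
    constructor
    · intro h n hn
      rw [Finset.mem_Icc] at hn
      exact h n hn.1 ((SG.ord_le_iff hn.1 T).2 hn.2)
    · intro h n hn hT
      exact h n (Finset.mem_Icc.2 ⟨hn, (SG.ord_le_iff hn T).1 hT⟩)
  have h2 : {t : ℝ | t ∈ Set.Icc 0 T ∧
      ∀ n : ℕ, 1 ≤ n → γ n ≤ T → (γ n - t) * (Real.log T / (2 * Real.pi)) ∉ U} =
      {t | Pool.Agent.K4H58.KL.vd T U t = 1} ∩ Set.Icc 0 T := by
    ext t
    rw [Set.mem_ofPred_eq, Set.mem_inter_iff, and_comm, h1]
    refine and_congr_left fun _ => ?_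
    rw [Set.mem_ofPred_eq]
    constructor
    · exact fun h => Pool.Agent.K4H58.KL.vd_one h
    · intro h n hn hs
      rw [Pool.Agent.K4H58.KL.vd_zero hn hs] at h
      norm_num at h
  have hm : MeasurableSet {t | Pool.Agent.K4H58.KL.vd T U t = 1} :=
    (Pool.Agent.K4H58.KL.vd_meas T hU) (measurableSet_singleton 1)
  have h3 : ∀ t, Pool.Agent.K4H58.KL.vd T U t =
      {t | Pool.Agent.K4H58.KL.vd T U t = 1}.indicator (1 : ℝ → ℝ) t := by
    intro t
    by_cases h : Pool.Agent.K4H58.KL.vd T U t = 1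
    · rw [Set.indicator_of_mem (show t ∈ {t | Pool.Agent.K4H58.KL.vd T U t = 1} from h), h]
      rfl
    · rw [Set.indicator_of_notMem (show t ∉ {t | Pool.Agent.K4H58.KL.vd T U t = 1} from h)]
      classical
      rw [Pool.Agent.K4H58.KL.vd_eq] at h ⊢
      split_ifs at h ⊢ with h4
      · rfl
      · exact absurd rfl h
  rw [h2, MeasureTheory.integral_congr_ae (Eventually.of_forall h3), integral_indicator_one hm]
  rw [Measure.real, Measure.restrict_apply hm]

lemma void_iff {r : ℕ} (a b : Fin r → ℝ) : VoidAsymp a b ↔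
    Tendsto (Pool.Agent.K4H58.KL.VT (⋃ i, Set.Ico (a i) (b i))) atTop
      (𝓝 (Pool.Agent.K4H58.KL.Fr (⋃ i, Set.Ico (a i) (b i)))) := by
  have hU : MeasurableSet (⋃ i, Set.Ico (a i) (b i)) := MeasurableSet.iUnion fun i => measurableSet_Ico
  have h1 : (fun T : ℝ => void T (⋃ i, Set.Ico (a i) (b i))) =
      Pool.Agent.K4H58.KL.VT (⋃ i, Set.Ico (a i) (b i)) := funext fun T => void_eq T hU
  unfold VoidAsymp
  rw [h1]
  exact Iff.rfl

lemma back (hRH : RiemannHypothesis) (m : ℕ) (ε : ℝ) (hε : 0 < ε)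
    (h : ∀ (r : ℕ) (a b : Fin r → ℝ), r ≤ m + 1 → Intervals a b → ∑ i, (b i - a i) ≤ ε → VoidAsymp a b) :
    Level m := by
  intro x y _
  exact Pool.Agent.K4H58.KL.back (rhs_of hRH) hε
    (fun r a b hr h1 h2 h3 => (void_iff a b).1 (h r a b hr ⟨h1, h2⟩ h3)) x y

lemma all_boxes {m : ℕ} (h : Level m) (x y : Fin m → ℝ) : Pool.Agent.K4H58.KL.LB x y := by
  by_cases hxy : ∀ i, x i ≤ y i
  · exact h x y hxy
  · have he : Set.Icc x y = ∅ := by
      rw [Set.Icc_eq_empty_iff]
      exact hxy
    unfold Pool.Agent.K4H58.KL.LB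
    have h1 : ∀ T : ℝ, Pool.Agent.R320.KL.Nk T x y = 0 := by
      intro T
      have h2 := Pool.Agent.K4H58.KL.Nk_TS T x y
      unfold Pool.Agent.K4H58.KL.TS at h2
      rw [he] at h2
      simpa using h2
    rw [he]
    simp only [h1, Nat.cast_zero, zero_div, Measure.restrict_empty, integral_zero_measure]
    exact tendsto_const_nhds

/-- **The k-level conjecture and void probabilities (RH).**
(1) For every `m` and `ε > 0`: if the void asymptotics hold for all unions of at most `k = m + 1`
disjoint intervals of total length at most `ε`, then the `k`-level conjecture holds (for all boxes).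
(2) The `k`-level conjecture holds for all `k` if and only if the void asymptotics hold for all finite
unions of disjoint intervals. -/
theorem result (hRH : RiemannHypothesis) :
    (∀ (m : ℕ) (ε : ℝ), 0 < ε → (∀ (r : ℕ) (a b : Fin r → ℝ), r ≤ m + 1 → Intervals a b →
      ∑ i, (b i - a i) ≤ ε → VoidAsymp a b) → Level m) ∧
    ((∀ m : ℕ, Level m) ↔ ∀ (r : ℕ) (a b : Fin r → ℝ), Intervals a b → VoidAsymp a b) := by
  refine ⟨back hRH, ⟨fun h r a b hab => ?_, fun h m => ?_⟩⟩
  · exact (void_iff a b).2 (Pool.Agent.K4H58.KL.forward (fun m x y => all_boxes (h m) x y) a b hab.2)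
  · exact back hRH m 1 one_pos fun r a b _ hab _ => h r a b hab

end Pool.Agent.Results.MP_67227b_nt.VoidProbabilities
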